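import Pool.Agent.N343.AM.Stm

/-! Concatenations of every length at least `m ^ 2`. -/

set_option autoImplicit false

namespace Pool.Agent.N513.AM

open Pool.Agent.N343.AM

theorem main : S_FRO := by
  intro W m hL n hn
  obtain ⟨w0, h0, l0⟩ := hL.ex0
  obtain ⟨w1, h1, l1⟩ := hL.ex1
  have hm : 0 < m := hL.m1
  have hq : m ≤ n / m := by
    rw [Nat.le_div_iff_mul_le hm, ← sq]
    exact hn
  have hr : n % m < m := Nat.mod_lt _ hm
  have hle : n % m ≤ n / m := by omega
  refine ⟨(List.replicate (n / m - n % m) w0 ++ List.replicate (n % m) w1).flatten,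
    ⟨_, ?_, rfl⟩, ?_⟩
  · intro w hw
    rw [List.mem_append] at hw
    rcases hw with hw | hw
    · rw [List.eq_of_mem_replicate hw]
      exact h0
    · rw [List.eq_of_mem_replicate hw]
      exact h1
  · rw [List.length_flatten, List.map_append, List.map_replicate, List.map_replicate,
      List.sum_append, List.sum_replicate, List.sum_replicate, l0, l1, smul_eq_mul, smul_eq_mul]
    obtain ⟨d, hd⟩ := Nat.exists_eq_add_of_le hle
    have hdm : m * (n / m) + n % m = n := Nat.div_add_mod n m
    have h2 : n / m - n % m = d := by omega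
    rw [h2]
    rw [hd] at hdm
    calc d * m + n % m * (m + 1) = m * (n % m + d) + n % m := by ring
      _ = n := hdm

end Pool.Agent.N513.AM
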